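import Mathlib

namespace Pool.Agent.Results.MP_ec2f19_co.Forty

/-- The number of edges of colour `γ` from `v` to the set `X`. -/
noncomputable def deg {V : Type} (G : SimpleGraph V) (c : G.edgeSet → Bool) (γ : Bool)
    (X : Set V) (v : V) : ℕ :=
  {x | x ∈ X ∧ ∃ h : G.Adj v x, c ⟨s(v, x), h⟩ = γ}.ncard

/-- Every vertex has red degree equal to its blue degree. -/
def Eulerian {V : Type} (G : SimpleGraph V) (c : G.edgeSet → Bool) : Prop :=
  ∀ v, deg G c true Set.univ v = deg G c false Set.univ v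

/-- The partition with parts `f ⁻¹ {i}`, `i : Fin 3`, is a majority partition. -/
def Majority {V : Type} (G : SimpleGraph V) (c : G.edgeSet → Bool) (f : V → Fin 3) : Prop :=
  ∀ γ v, deg G c γ {x | f x = f v} v ≤ deg G c γ {x | f x ≠ f v} v

abbrev W := Fin 4 ⊕ (Fin 6 × Bool × Fin 3)

def h1 : Fin 6 → Fin 4 := ![0, 0, 0, 1, 1, 2]
def h2 : Fin 6 → Fin 4 := ![1, 2, 3, 2, 3, 3]

/-- `A γ u v`: there is an edge of colour `γ` between `u` and `v`. -/
def A (γ : Bool) : W → W → Bool
  | Sum.inl _, Sum.inl _ => false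
  | Sum.inl h, Sum.inr (p, t, _) => (h == h1 p || h == h2 p) && t != γ
  | Sum.inr (p, t, _), Sum.inl h => (h == h1 p || h == h2 p) && t != γ
  | Sum.inr (p, t, i), Sum.inr (q, s, j) => p == q &&
      (if t = s then t == γ && i != j else if γ then i == j else if t then i == j + 1
        else j == i + 1)

theorem A_symm : ∀ γ u v, A γ u v = A γ v u := by decide +kernel

def G : SimpleGraph W where
  Adj u v := A true u v = true ∨ A false u v = true
  symm := ⟨fun u v h => by rwa [A_symm true v u, A_symm false v u]⟩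
  loopless := ⟨by decide +kernel⟩

def c (e : G.edgeSet) : Bool := Sym2.lift ⟨A true, A_symm true⟩ e.1

theorem deg_eq (γ : Bool) (X : Set W) [DecidablePred (· ∈ X)] (v : W) :
    deg G c γ X v = (Finset.univ.filter (fun x => x ∈ X ∧ A γ v x = true)).card := by
  unfold deg
  rw [← Set.ncard_coe_finset]
  congr 1
  ext x
  have h : ∀ u v, ¬ (A true u v = true ∧ A false u v = true) := by decide +kernel
  have := h v x
  simp only [c, Sym2.lift_mk, G, Set.mem_ofPred_eq, exists_prop, Finset.coe_filter,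
    Finset.mem_univ, true_and]
  cases γ <;> cases h1 : A true v x <;> cases h2 : A false v x <;> simp_all

theorem two (f : W → Fin 3) (hf : Majority G c f) (γ : Bool) (v : Fin 6 × Bool × Fin 3)
    (x y : W) (hxy : x ≠ y) (hx : A γ (Sum.inr v) x = true) (hy : A γ (Sum.inr v) y = true) :
    ¬ (f x = f (Sum.inr v) ∧ f y = f (Sum.inr v)) := by
  rintro ⟨ex, ey⟩
  have h := hf γ (Sum.inr v)
  rw [deg_eq, deg_eq] at h
  have h3 : ∀ γ (v : Fin 6 × Bool × Fin 3),
      (Finset.univ.filter (fun x => A γ (Sum.inr v) x = true)).card = 3 := by decide +kernel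
  have h4 := Finset.card_filter_add_card_filter_not
    (s := Finset.univ.filter (fun x => A γ (Sum.inr v) x = true)) (fun x => f x = f (Sum.inr v))
  rw [h3, Finset.filter_filter, Finset.filter_filter] at h4
  have h5 : ({x, y} : Finset W).card ≤ (Finset.univ.filter
      (fun x => A γ (Sum.inr v) x = true ∧ f x = f (Sum.inr v))).card := by
    apply Finset.card_le_card
    intro z hz
    simp only [Finset.mem_insert, Finset.mem_singleton] at hz
    rcases hz with rfl | rfl <;> simp [*]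
  rw [Finset.card_pair hxy] at h5
  simp only [Set.mem_ofPred_eq, ne_eq] at h
  simp only [and_comm (a := A γ (Sum.inr v) _ = true)] at h4 h5
  omega

def Bad (b : Fin 3) (x y : Fin 3 → Fin 3) : Prop :=
  ((∀ i, x i ≠ b) ∧ ∀ i, y i ≠ b) ∧
  ((∀ i, ¬ (x (i + 1) = x i ∧ x (i + 2) = x i)) ∧ ∀ i, ¬ (y (i + 1) = y i ∧ y (i + 2) = y i)) ∧
  (∀ i j, j ≠ i → ¬ (x j = x i ∧ y i = x i)) ∧ ∀ i j, j ≠ i → ¬ (y j = y i ∧ x (i + 1) = y i)

instance (b : Fin 3) (x y : Fin 3 → Fin 3) : Decidable (Bad b x y) := by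
  unfold Bad; infer_instance

theorem key : ∀ b x y, ¬ Bad b x y := by decide +kernel

theorem result : ∃ (V : Type) (_ : Fintype V) (G : SimpleGraph V) (c : G.edgeSet → Bool),
    Eulerian G c ∧ ¬ ∃ f : V → Fin 3, Majority G c f := by
  refine ⟨W, inferInstance, G, c, fun v => ?_, ?_⟩
  · rw [deg_eq, deg_eq]
    simp only [Set.mem_univ, true_and]
    revert v; decide +kernel
  · rintro ⟨f, hf⟩
    have hp : ∃ p, f (Sum.inl (h1 p)) = f (Sum.inl (h2 p)) := by
      have : ∀ g : Fin 4 → Fin 3, ∃ p, g (h1 p) = g (h2 p) := by decide +kernel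
      exact this (fun i => f (Sum.inl i))
    obtain ⟨p, hp⟩ := hp
    have e1 : ∀ t i, f (Sum.inr (p, t, i)) ≠ f (Sum.inl (h1 p)) := by
      intro t i h
      refine two f hf (!t) (p, t, i) (Sum.inl (h1 p)) (Sum.inl (h2 p)) ?_ ?_ ?_
        ⟨h.symm, hp.symm.trans h.symm⟩ <;> clear h hp <;> revert p t i <;> decide +kernel
    have e2 : ∀ t i, ¬ (f (Sum.inr (p, t, i + 1)) = f (Sum.inr (p, t, i)) ∧
        f (Sum.inr (p, t, i + 2)) = f (Sum.inr (p, t, i))) := by
      intro t i
      refine two f hf t (p, t, i) _ _ ?_ ?_ ?_ <;> clear e1 hp <;> revert p t i <;>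
        decide +kernel
    have e3 : ∀ i j, j ≠ i → ¬ (f (Sum.inr (p, true, j)) = f (Sum.inr (p, true, i)) ∧
        f (Sum.inr (p, false, i)) = f (Sum.inr (p, true, i))) := by
      intro i j hij
      refine two f hf true (p, true, i) _ _ ?_ ?_ ?_ <;> clear e1 e2 hp <;> revert p i j <;>
        decide +kernel
    have e4 : ∀ i j, j ≠ i → ¬ (f (Sum.inr (p, false, j)) = f (Sum.inr (p, false, i)) ∧
        f (Sum.inr (p, true, i + 1)) = f (Sum.inr (p, false, i))) := by
      intro i j hij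
      refine two f hf false (p, false, i) _ _ ?_ ?_ ?_ <;> clear e1 e2 e3 hp <;>
        revert p i j <;> decide +kernel
    exact key _ (fun i => f (Sum.inr (p, true, i))) (fun i => f (Sum.inr (p, false, i)))
      ⟨⟨e1 true, e1 false⟩, ⟨e2 true, e2 false⟩, e3, e4⟩

end Pool.Agent.Results.MP_ec2f19_co.Forty
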